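import Mathlib
import Pool.Agent.H348R6.GV3

/-!
# Fine normal ultrafilters on `P_κ(κ⁺)` do not have the Galvin property

Let `κ` be an uncountable cardinal, `|X| = κ⁺`, and let `U` be a fine normal ultrafilter over
`P_κ(X)`. Then `Gal(U, κ, κ⁺⁺)` fails (in ZFC). If moreover `2 ^ κ = κ⁺`, or `2 ^ κ⁺ = κ⁺⁺`, then
`Gal(U, κ, 2 ^ κ⁺)` fails.

Idea: let `h i` be pairwise eventually different functions `κ⁺ → κ⁺`. The set `A i` of all
`x ∈ P_κ(κ⁺)` closed under `h i` is in `U` by normality. If `B ∈ U` is contained in `A i` for all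
`i` in a set `I` of size `κ`, take `β` above all the points where two of the `h i` (`i ∈ I`) agree,
and `x ∈ B` with `β ∈ x`: then `x` has the `κ` many elements `h i β`, which is absurd.
-/

set_option autoImplicit false

namespace Pool.Agent.Results.MP_a3089e_lc.FineNormalNotGalvin

open Cardinal Set

universe u

/-- `P_κ(X)`: the subsets of `X` of size less than `κ`. -/
abbrev Pk (κ : Cardinal.{u}) (X : Type u) : Type u := {x : Set X // #x < κ}

/-- `U` is a fine normal ultrafilter over `P_κ(X)`: it is `κ`-complete, fine, and every `f` with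
`f x ∈ x` for almost all `x` is constant on a member of `U`. -/
structure FineNormal (κ : Cardinal.{u}) (X : Type u) (U : Ultrafilter (Pk κ X)) : Prop where
  complete : ∀ S : Set (Set (Pk κ X)), #S < κ → (∀ s ∈ S, s ∈ U) → ⋂₀ S ∈ U
  fine : ∀ a : X, {x : Pk κ X | a ∈ x.1} ∈ U
  normal : ∀ f : Pk κ X → X, {x : Pk κ X | f x ∈ x.1} ∈ U →
    ∃ a : X, {x : Pk κ X | f x = a} ∈ U

/-- The Galvin property `Gal(F, μ, θ)`: every set of `θ` members of `F` has a subset of size `μ`
whose intersection is in `F`. -/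
def Gal {P : Type u} (F : Filter P) (μ θ : Cardinal.{u}) : Prop :=
  ∀ S : Set (Set P), (∀ s ∈ S, s ∈ F) → #S = θ → ∃ T ⊆ S, #T = μ ∧ ⋂₀ T ∈ F

theorem result (κ : Cardinal.{u}) (hκ : ℵ₀ < κ) (X : Type u) (hX : #X = Order.succ κ)
    (U : Ultrafilter (Pk κ X)) (hU : FineNormal κ X U) :
    ¬ Gal (U : Filter (Pk κ X)) κ (Order.succ (Order.succ κ)) ∧
    (((2 : Cardinal.{u}) ^ κ = Order.succ κ ∨
        (2 : Cardinal.{u}) ^ Order.succ κ = Order.succ (Order.succ κ)) →
      ¬ Gal (U : Filter (Pk κ X)) κ ((2 : Cardinal.{u}) ^ Order.succ κ)) := by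
  have h1 : ¬ Gal (U : Filter (Pk κ X)) κ (Order.succ (Order.succ κ)) := by
    intro hG
    obtain ⟨h, hh⟩ := Pool.Agent.H348R6.GV.family_scale hκ
    obtain ⟨S, hS, hcard, hT⟩ := Pool.Agent.H348R6.GV.not_gal_of_family hκ hX U hU.fine hU.normal
      (Θ := (Order.succ (Order.succ κ)).ord.ToType)
      (by rw [Cardinal.mk_toType, card_ord]
          exact (Order.lt_succ κ).trans (Order.lt_succ _)) h hh
    rw [Cardinal.mk_toType, card_ord] at hcard
    obtain ⟨T, hTS, hTc, hTU⟩ := hG S hS hcard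
    exact hT T hTS hTc hTU
  refine ⟨h1, ?_⟩
  rintro (hg | hg)
  · intro hG
    obtain ⟨h, hh⟩ := Pool.Agent.H348R6.GV.family_sets hκ hg
    have hmk : #(Set (Order.succ κ).ord.ToType) = (2 : Cardinal.{u}) ^ Order.succ κ := by
      rw [mk_set, Cardinal.mk_toType, card_ord]
    obtain ⟨S, hS, hcard, hT⟩ := Pool.Agent.H348R6.GV.not_gal_of_family hκ hX U hU.fine hU.normal
      (Θ := Set (Order.succ κ).ord.ToType)
      (by rw [hmk]; exact (Order.lt_succ κ).trans (cantor _)) h hh
    rw [hmk] at hcard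
    obtain ⟨T, hTS, hTc, hTU⟩ := hG S hS hcard
    exact hT T hTS hTc hTU
  · rw [hg]
    exact h1

end Pool.Agent.Results.MP_a3089e_lc.FineNormalNotGalvin
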